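import Pool.Agent.H37.AF.Def
import Pool.Agent.H87.STAT.Nrm

/-!
# Affine frames: one more coordinate

`Q` a frame of any degree, `P` an affine frame of the first coordinates, the closed labels of the
coordinate `l` near to affine functions. The part of degree `≤ 1` of `Q l` in the chart of `P`
extends the affine frame.
-/

set_option autoImplicit false

namespace Pool.AF35

open Finset Real MvPolynomial
open Pool.STAT Pool.MIC.Frm Pool.FRM Pool.P4 Pool.AF37
open Pool.SYS35 (nrm_nonneg')

/-! ### The part of degree `≤ 1` -/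

/-- The part of degree `≤ 1`. -/
noncomputable def lo (F : PN) : PN := homogeneousComponent 0 F + homogeneousComponent 1 F

theorem coeff_lo (F : PN) (α : ℕ →₀ ℕ) : coeff α (lo F) = if α.degree ≤ 1 then coeff α F else 0 := by
  unfold lo
  rw [coeff_add, coeff_homogeneousComponent, coeff_homogeneousComponent]
  by_cases h0 : α.degree = 0
  · rw [if_pos h0, if_neg (by omega), if_pos (by omega), add_zero]
  · by_cases h1 : α.degree = 1
    · rw [if_neg h0, if_pos h1, if_pos (by omega), zero_add]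
    · rw [if_neg h0, if_neg h1, if_neg (by omega), zero_add]

theorem lo_add (F G : PN) : lo (F + G) = lo F + lo G := by
  refine MvPolynomial.ext _ _ fun α => ?_
  rw [coeff_add, coeff_lo, coeff_lo, coeff_lo, coeff_add]
  split_ifs
  · rfl
  · rw [add_zero]

theorem supp_lo (F : PN) : (lo F).support ⊆ F.support := by
  intro α hα
  rw [MvPolynomial.mem_support_iff, coeff_lo] at hα
  rw [MvPolynomial.mem_support_iff]
  split_ifs at hα with h
  · exact hα
  · exact absurd rfl hα

theorem vars_lo (F : PN) : (lo F).vars ⊆ F.vars := Pool.SYS35.vars_sub_of_support (supp_lo F)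

theorem deg_lo (F : PN) : (lo F).totalDegree ≤ 1 := by
  unfold lo
  refine (totalDegree_add _ _).trans (max_le ?_ ?_)
  · exact ((homogeneousComponent_isHomogeneous 0 F).totalDegree_le).trans (by omega)
  · exact (homogeneousComponent_isHomogeneous 1 F).totalDegree_le

theorem lo_of_deg {F : PN} (h : F.totalDegree ≤ 1) : lo F = F := by
  refine MvPolynomial.ext _ _ fun α => ?_
  rw [coeff_lo]
  split_ifs with h1
  · rfl
  · symm
    by_contra h2
    refine h1 (le_trans ?_ h)
    exact le_totalDegree (MvPolynomial.mem_support_iff.2 h2)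

/-- The part of degree `≥ 2`. -/
noncomputable def hip (F : PN) : PN := F - lo F

theorem hip_add (F G : PN) : hip (F + G) = hip F + hip G := by
  unfold hip
  rw [lo_add]
  ring

theorem hip_of_deg {F : PN} (h : F.totalDegree ≤ 1) : hip F = 0 := by
  unfold hip
  rw [lo_of_deg h, sub_self]

theorem nrm_hip (d : ℕ → ℕ) (F : PN) : nrm d (1 / 2) (hip F) ≤ nrm d (1 / 2) F := by
  refine NRM.nrm_dom d _ _ (by norm_num) fun α => ?_
  unfold hip
  rw [coeff_sub, coeff_lo]
  split_ifs
  · rw [sub_self, abs_zero]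
    exact abs_nonneg _
  · rw [sub_zero]

/-- The part of degree `≥ 2` of a polynomial near to an affine one. -/
theorem nrm_hip_near (d : ℕ → ℕ) {F A G : PN} (hA : A.totalDegree ≤ 1) :
    nrm d (1 / 2) (hip F) ≤ nrm d (1 / 2) (G - F) + nrm d (1 / 2) (G - A) := by
  have h1 : hip F = hip (-(G - F)) + hip (G - A) + hip A := by
    rw [← hip_add, ← hip_add]
    congr 1
    ring
  rw [h1, hip_of_deg hA, add_zero]
  refine (NRM.nrm_add d (by norm_num) _ _).trans (add_le_add ?_ (nrm_hip d _))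
  refine (nrm_hip d _).trans (le_of_eq (NRM.nrm_neg d _ _))

/-! ### Affine charts -/

theorem deg_nuc {P : ℕ → PN} (hP : TriN P) {m : ℕ} (h : ∀ k < m, (P k).totalDegree ≤ 1) :
    ∀ k < m, (nuc (fun _ => 0) P k).totalDegree ≤ 1 := by
  intro k
  induction k using Nat.strong_induction_on with
  | _ k ih =>
    intro hk
    rw [AdxRow.nuc_eq hP]
    refine (totalDegree_add _ _).trans (max_le ?_ ?_)
    · refine (Dgb.deg_bind (B := 1) fun i hi => ?_).trans ?_
      · have := mem_range.1 (hP k hi)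
        exact ih i this (by omega)
      · rw [mul_one]
        exact h k hk
    · refine (totalDegree_mul _ _).trans ?_
      rw [totalDegree_C, totalDegree_X]

theorem deg_chr {P : ℕ → PN} (hP : TriN P) {m : ℕ} (h : ∀ k < m, (P k).totalDegree ≤ 1) {F : PN}
    (hv : F.vars ⊆ range m) : (chr P F).totalDegree ≤ F.totalDegree := by
  unfold chr
  refine (Dgb.deg_bind (B := 1) fun i hi => deg_nuc hP h i (mem_range.1 (hv hi))).trans ?_
  rw [mul_one]

/-! ### Change of the frame -/

/-- The values on the natural box of a frame. -/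
theorem val_box {Q : ℕ → PN} (hQ : TriN Q) (g : ℕ → ℕ) {m : ℕ} {F : PN} (hv : F.vars ⊆ range m)
    (b : ℕ → ℝ) (hb : ∀ k < m, |nat g Q b k| ≤ 1) : |eval b F| ≤ nrm g (1 / 2) (chr Q F) := by
  rw [← chr_eval hQ b F]
  have h := eval_le_nrm (n := m) (K := (chr Q F).totalDegree) (F := chr Q F) (chr_vars hQ hv)
    le_rfl g (B := 1) le_rfl (b := zs Q b) (fun i hi => by
      have h1 := hb i hi
      rw [nat_eq, abs_mul, abs_of_pos (by positivity : (0 : ℝ) < 2 ^ g i)] at h1
      rw [le_div_iff₀ (by positivity)]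
      linarith)
  rwa [one_pow, one_mul] at h

/-- **Change of the frame**: `Q` is a frame of the labels `Φ`, `P` is a frame of the first ones. -/
theorem change (K : ℕ) (C : ℝ) (hC : 0 ≤ C) : ∀ m : ℕ, ∃ C' : ℝ, 0 ≤ C' ∧
    ∀ (g : ℕ → ℕ) (Φ Q P : ℕ → PN) (z : ℕ), 1 ≤ z → TriN Φ → TriN Q → TriN P →
      (∀ i, (Φ i).totalDegree ≤ K) → (∀ i, (Q i).totalDegree ≤ K) →
      (∀ i, (P i).totalDegree ≤ K) →
      (∀ k ≤ m, nrm g (1 / 2) (chr Q (Φ k - Q k)) ≤ exp (C * z) / 2 ^ g k) →
      (∀ k < m, nrm g (1 / 2) (chr P (Φ k - P k)) ≤ exp (C * z) / 2 ^ g k) →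
      ∀ k ≤ m, nrm g (1 / 2) (chr P (Φ k - Q k)) ≤ exp (C' * z) / 2 ^ g k := by
  intro m
  induction m with
  | zero =>
    obtain ⟨Cs, Ds, hCs, hs⟩ := step 0 K
    refine ⟨Real.log Cs + C, add_nonneg (Real.log_nonneg hCs) hC, ?_⟩
    intro g Φ Q P z hz hΦ hQ hP dΦ dQ dP h1 _ k hk
    obtain rfl : k = 0 := by omega
    have hz1 : (1 : ℝ) ≤ z := by exact_mod_cast hz
    have hv : (Φ 0 - Q 0).vars ⊆ range 0 := AdxRow.vars_sub_le (hΦ 0) (hQ 0)
    have e1 := hs g Q P (Φ 0 - Q 0) (exp (C * z) / 2 ^ g 0) 1 hQ hP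
      (fun i _ => dQ i) (fun i _ => dP i) hv
      ((totalDegree_sub _ _).trans (max_le (dΦ 0) (dQ 0))) le_rfl
      (fun i hi => absurd hi (Nat.not_lt_zero _))
      (fun b hb => (val_box hQ g hv b hb).trans (h1 0 le_rfl))
    refine e1.trans ?_
    rw [one_pow, mul_one, ← mul_div_assoc]
    refine div_le_div_of_nonneg_right ?_ (by positivity)
    rw [add_mul, exp_add]
    refine mul_le_mul_of_nonneg_right ?_ (exp_pos _).le
    have hl : 0 ≤ Real.log Cs := Real.log_nonneg hCs
    calc Cs = exp (Real.log Cs) := (exp_log (by linarith)).symm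
      _ ≤ exp (Real.log Cs * z) := exp_le_exp.2 (le_mul_of_one_le_right hl hz1)
  | succ m ih =>
    obtain ⟨C₁, hC₁, h₁⟩ := ih
    obtain ⟨Cs, Ds, hCs, hs⟩ := step (m + 1) K
    have hl : 0 ≤ Real.log Cs := Real.log_nonneg hCs
    refine ⟨C₁ + (Real.log Cs + Ds * (C₁ + C + 1) + C), by positivity, ?_⟩
    intro g Φ Q P z hz hΦ hQ hP dΦ dQ dP h1 h2 k hk
    have hz1 : (1 : ℝ) ≤ z := by exact_mod_cast hz
    have hz0 : (0 : ℝ) ≤ z := by linarith
    have h3 := h₁ g Φ Q P z hz hΦ hQ hP dΦ dQ dP (fun k hk => h1 k (by omega))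
      (fun k hk => h2 k (by omega))
    by_cases hkm : k ≤ m
    · refine (h3 k hkm).trans (div_le_div_of_nonneg_right (exp_le_exp.2 ?_) (by positivity))
      refine mul_le_mul_of_nonneg_right ?_ hz0
      have : 0 ≤ Real.log Cs + Ds * (C₁ + C + 1) + C := by positivity
      linarith
    obtain rfl : k = m + 1 := by omega
    have hv : (Φ (m + 1) - Q (m + 1)).vars ⊆ range (m + 1) :=
      AdxRow.vars_sub_le (hΦ (m + 1)) (hQ (m + 1))
    have e0 : ∀ k < m + 1, nrm g (1 / 2) (chr P (Q k - P k)) ≤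
        exp ((C₁ + C + 1) * z) / 2 ^ g k := by
      intro k hk
      have a1 : chr P (Q k - P k) = -(chr P (Φ k - Q k)) + chr P (Φ k - P k) := by
        rw [chr_sub, chr_sub, chr_sub]
        ring
      rw [a1]
      refine (NRM.nrm_add g (by norm_num) _ _).trans ?_
      rw [NRM.nrm_neg]
      refine (add_le_add (h3 k (by omega)) (h2 k hk)).trans ?_
      rw [← add_div]
      refine div_le_div_of_nonneg_right ?_ (by positivity)
      have b1 : exp (C₁ * z) ≤ exp ((C₁ + C) * z) := exp_le_exp.2 (by nlinarith)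
      have b2 : exp (C * z) ≤ exp ((C₁ + C) * z) := exp_le_exp.2 (by nlinarith)
      have b3 : (2 : ℝ) ≤ exp (1 * z) := by
        have := add_one_le_exp (1 * (z : ℝ))
        linarith
      rw [add_mul, exp_add]
      nlinarith [exp_pos ((C₁ + C) * (z : ℝ))]
    have e1 := hs g Q P (Φ (m + 1) - Q (m + 1)) (exp (C * z) / 2 ^ g (m + 1))
      (exp ((C₁ + C + 1) * z)) hQ hP (fun i _ => dQ i) (fun i _ => dP i) hv
      ((totalDegree_sub _ _).trans (max_le (dΦ _) (dQ _)))
      (one_le_exp (by positivity)) e0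
      (fun b hb => (val_box hQ g hv b hb).trans (h1 (m + 1) le_rfl))
    refine e1.trans ?_
    rw [← mul_div_assoc]
    refine div_le_div_of_nonneg_right ?_ (by positivity)
    rw [← exp_nat_mul, ← exp_log (show 0 < Cs by linarith), Real.log_exp, ← exp_add, ← exp_add]
    refine exp_le_exp.2 ?_
    have b1 : Real.log Cs ≤ Real.log Cs * z := le_mul_of_one_le_right hl hz1
    have b2 : 0 ≤ C₁ * z := by positivity
    nlinarith

/-! ### The affine frame -/

/-- An affine frame and a polynomial in its chart. -/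
theorem bind_deg {P : ℕ → PN} (h : ∀ k, (P k).totalDegree ≤ 1) (R : PN) :
    (bind₁ (fun k => (X k - P k : PN)) R).totalDegree ≤ R.totalDegree := by
  refine (Dgb.deg_bind (B := 1) fun k _ => ?_).trans (by rw [mul_one])
  refine (totalDegree_sub _ _).trans (max_le ?_ (h k))
  rw [totalDegree_X]

theorem bind_vars {P : ℕ → PN} (hP : TriN P) {m : ℕ} {R : PN} (hR : R.vars ⊆ range m) :
    (bind₁ (fun k => (X k - P k : PN)) R).vars ⊆ range m := by
  have hXP : ∀ k, (X k - P k : PN).vars ⊆ range (k + 1) := fun k =>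
    AdxRow.vars_sub_le (AdxRow.vars_X_le (Nat.lt_succ_self _))
      ((hP k).trans (Finset.range_mono (by omega)))
  exact AdxRow.vars_bnd hR fun k hk => (hXP k).trans (Finset.range_mono (by omega))

/-- The value at the point of the frame. -/
theorem val_pt {P : ℕ → PN} (hP : TriN P) {x : ℕ → ℝ} {m : ℕ} (hx : ∀ k < m, eval x (P k) = x k)
    {F : PN} (hF : F.vars ⊆ range m) : eval x F = coeff 0 (chr P F) := by
  have e1 : eval (zs P x) (chr P F) = eval (fun _ => (0 : ℝ)) (chr P F) :=
    Pool.SYS35.eval_congr (chr_vars hP hF) fun i hi => by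
      unfold zs
      rw [hx i hi, sub_self]
  rw [← chr_eval hP x F, e1, ← constantCoeff_eq]
  exact RingHom.congr_fun eval_zero _

theorem degree_zero' : (0 : ℕ →₀ ℕ).degree = 0 := by simp

/-- **One more affine coordinate.** -/
theorem fraOne : FraOne := by
  intro n K C B hC hB
  obtain ⟨K₀, hK₀⟩ : ∃ K₀, K₀ = max K 1 := ⟨_, rfl⟩
  have hKK : K ≤ K₀ := by omega
  have hK1 : 1 ≤ K₀ := by omega
  choose Cc hCc hc using change K₀ C hC
  choose Cs Ds hCs hs using fun m => step m K₀
  obtain ⟨S, hS⟩ : ∃ S : ℝ, S = ∑ l ∈ range (n + 1),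
      (Cc l + (Real.log (Cs l) + Ds l * C)) := ⟨_, rfl⟩
  have hl0 : ∀ l, 0 ≤ Real.log (Cs l) := fun l => Real.log_nonneg (hCs l)
  have hS1 : ∀ l ≤ n, Cc l + (Real.log (Cs l) + Ds l * C) ≤ S := by
    intro l hl
    rw [hS]
    exact Finset.single_le_sum (f := fun l => Cc l + (Real.log (Cs l) + Ds l * C))
      (fun k _ => by have := hCc k; have := hl0 k; positivity)
      (mem_range.2 (Nat.lt_succ_of_le hl))
  have hS0 : 0 ≤ S := le_trans (by have := hCc 0; have := hl0 0; positivity)
    (hS1 0 (Nat.zero_le _))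
  refine ⟨C + S + B + 2, by positivity, ?_⟩
  intro D z M l ω hz hl hln hT hd hQ' hP' hA
  obtain ⟨Q, hQ, dQ, vQ, nQ⟩ := hQ'
  obtain ⟨P, hP, dP, vP, nP⟩ := hP'
  have hz1 : (1 : ℝ) ≤ z := by exact_mod_cast hz
  have hz0 : (0 : ℝ) ≤ z := by linarith
  obtain ⟨R, hR⟩ : ∃ R, R = chr P (Q l) := ⟨_, rfl⟩
  have vR : R.vars ⊆ range l := by rw [hR]; exact chr_vars hP (hQ l)
  obtain ⟨A, hA'⟩ : ∃ A : PN, A = bind₁ (fun k => (X k - P k : PN)) (lo R) := ⟨_, rfl⟩
  have vA : A.vars ⊆ range l := by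
    rw [hA']
    exact bind_vars hP ((vars_lo R).trans vR)
  have dA : A.totalDegree ≤ 1 := by
    rw [hA']
    exact (bind_deg dP _).trans (deg_lo R)
  have cA : chr P A = lo R := by rw [hA']; exact chr_inv hP _
  obtain ⟨P', hP'⟩ : ∃ P', P' = Function.update P l A := ⟨_, rfl⟩
  have eP : ∀ k, k ≠ l → P' k = P k := fun k hk => by rw [hP', Function.update_of_ne hk]
  have eA : P' l = A := by rw [hP', Function.update_self]
  have tP' : TriN P' := by
    intro k
    by_cases hk : k = l
    · subst hk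
      rw [eA]
      exact vA
    · rw [eP k hk]
      exact hP k
  have hcg : ∀ F : PN, F.vars ⊆ range l → chr P' F = chr P F := fun F hF =>
    chr_congr tP' hP (fun k hk => eP k hk.ne) hF
  have vx : ∀ k < l, eval (D.X ω) (P k) = D.X ω k := fun k hk => vP k (by omega)
  refine ⟨P', tP', fun m => ?_, fun m hm => ?_, ?_⟩
  · by_cases hm : m = l
    · subst hm
      rw [eA]
      exact dA
    · rw [eP m hm]
      exact dP m
  · by_cases hml : m = l
    · subst hml
      rw [eA, val_pt hP vx vA, cA, coeff_lo, if_pos (by rw [degree_zero']; omega), hR,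
        ← val_pt hP vx (hQ m)]
      exact vQ m hln
    · rw [eP m hml]
      exact vx m (by omega)
  intro i hi j hj m hm
  by_cases hml : m = l
  swap
  · rw [eP m hml, hcg _ ((AdxRow.vars_sub_le (hT i j m) (hP m)).trans
      (Finset.range_mono (by omega)))]
    refine (nP i hi j hj m (by omega)).trans ?_
    refine div_le_div_of_nonneg_right (exp_le_exp.2 ?_) (by positivity)
    refine mul_le_mul_of_nonneg_right ?_ hz0
    linarith
  subst hml
  obtain ⟨L, vL, dL, hL⟩ := hA i hi j hj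
  rw [eA, hcg _ (AdxRow.vars_sub_le (hT i j m) vA), chr_sub, cA]
  -- the distance of the label and of `Q m`
  have e1 : nrm (D.g i j) (1 / 2) (chr P (D.Φ i j ω m - Q m)) ≤
      exp (Cc m * z) / 2 ^ D.g i j m :=
    hc m (D.g i j) (D.Φ i j ω) Q P z hz (hT i j) hQ hP (fun k => (hd i j k).trans hKK)
      (fun k => (dQ k).trans hKK) (fun k => (dP k).trans hK1)
      (fun k hk => nQ i hi j hj k (by omega)) (fun k hk => nP i hi j hj k (by omega)) m le_rfl
  -- the distance of the label and of `L`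
  have e2 : nrm (D.g i j) (1 / 2) (chr P (D.Φ i j ω m - L)) ≤
      Cs m * exp (C * z) ^ Ds m * (exp (B * z) / 2 ^ D.g i j m) :=
    hs m (D.g i j) (D.Φ i j ω) P (D.Φ i j ω m - L) (exp (B * z) / 2 ^ D.g i j m) (exp (C * z))
      (hT i j) hP (fun k _ => (hd i j k).trans hKK) (fun k _ => (dP k).trans hK1)
      (AdxRow.vars_sub_le (hT i j m) vL)
      ((totalDegree_sub _ _).trans (max_le ((hd i j m).trans hKK) (dL.trans hK1)))
      (one_le_exp (by positivity)) (fun k hk => nP i hi j hj k (by omega)) (fun b hb => by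
        rw [map_sub]
        exact hL b hb)
  have e3 : nrm (D.g i j) (1 / 2) (hip R) ≤
      nrm (D.g i j) (1 / 2) (chr P (D.Φ i j ω m - Q m)) +
        nrm (D.g i j) (1 / 2) (chr P (D.Φ i j ω m - L)) := by
    have := nrm_hip_near (D.g i j) (F := R) (A := chr P L) (G := chr P (D.Φ i j ω m))
      ((deg_chr hP (m := m) (fun k _ => dP k) vL).trans dL)
    rwa [hR, ← chr_sub, ← chr_sub, ← hR] at this
  have e4 : chr P (D.Φ i j ω m) - lo R = chr P (D.Φ i j ω m - Q m) + hip R := by
    rw [chr_sub, ← hR]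
    unfold hip
    ring
  rw [e4]
  refine (NRM.nrm_add _ (by norm_num) _ _).trans ?_
  have e5 : Cs m * exp (C * z) ^ Ds m * (exp (B * z) / 2 ^ D.g i j m) ≤
      exp ((S + B) * z) / 2 ^ D.g i j m := by
    rw [← mul_div_assoc]
    refine div_le_div_of_nonneg_right ?_ (by positivity)
    rw [← exp_nat_mul, ← exp_log (show 0 < Cs m by linarith [hCs m]), ← exp_add, ← exp_add]
    refine exp_le_exp.2 ?_
    have b1 : Real.log (Cs m) ≤ Real.log (Cs m) * z := le_mul_of_one_le_right (hl0 m) hz1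
    have b2 := mul_le_mul_of_nonneg_right (hS1 m hln) hz0
    have b3 : 0 ≤ Cc m * z := mul_nonneg (hCc m) hz0
    nlinarith
  have e6 : exp (Cc m * z) / 2 ^ D.g i j m ≤ exp ((S + B) * z) / 2 ^ D.g i j m := by
    refine div_le_div_of_nonneg_right (exp_le_exp.2 ?_) (by positivity)
    refine mul_le_mul_of_nonneg_right ?_ hz0
    have b1 := hS1 m hln
    have b2 : 0 ≤ Real.log (Cs m) + Ds m * C := by have := hl0 m; positivity
    linarith
  have e7 : 3 * (exp ((S + B) * z) / 2 ^ D.g i j m) ≤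
      exp ((C + S + B + 2) * z) / 2 ^ D.g i j m := by
    rw [← mul_div_assoc]
    refine div_le_div_of_nonneg_right ?_ (by positivity)
    have b1 : (3 : ℝ) ≤ exp ((C + 2) * z) := by
      have := add_one_le_exp ((C + 2) * (z : ℝ))
      nlinarith
    have b2 : (C + S + B + 2) * (z : ℝ) = (C + 2) * z + (S + B) * z := by ring
    rw [b2, exp_add]
    exact mul_le_mul_of_nonneg_right b1 (exp_pos _).le
  linarith

/-- The base case. -/
theorem fraZero (n K : ℕ) (C : ℝ) (D : NDat2) (z M : ℕ) (ω : D.Ω)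
    (hT : ∀ i j, TriN (D.Φ i j ω)) : FraC D n K M z C ω → FraC D 0 1 M z C ω := by
  rintro ⟨Q, hQ, dQ, vQ, nQ⟩
  obtain ⟨P, hP'⟩ : ∃ P : ℕ → PN, P = Function.update (fun _ => 0) 0 (Q 0) := ⟨_, rfl⟩
  have e0 : P 0 = Q 0 := by rw [hP', Function.update_self]
  have e1 : ∀ k, k ≠ 0 → P k = 0 := fun k hk => by rw [hP', Function.update_of_ne hk]
  have hP : TriN P := by
    intro k
    by_cases hk : k = 0
    · subst hk
      rw [e0]
      exact hQ 0
    · rw [e1 k hk, vars_0]
      exact Finset.empty_subset _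
  have d0 : (Q 0).totalDegree ≤ 1 := by
    unfold totalDegree
    refine Finset.sup_le fun α hα => ?_
    have h1 : α = 0 := by
      refine Finsupp.ext fun i => ?_
      by_contra h
      exact absurd (Pool.SYS35.vars_of_mem (hQ 0) hα (Finsupp.mem_support_iff.2 h))
        (Nat.not_lt_zero _)
    rw [h1, Finsupp.sum_zero_index]
    exact Nat.zero_le _
  refine ⟨P, hP, fun k => ?_, fun k hk => ?_, fun i hi j hj k hk => ?_⟩
  · by_cases hk : k = 0
    · subst hk
      rw [e0]
      exact d0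
    · rw [e1 k hk, totalDegree_zero]
      exact Nat.zero_le _
  · obtain rfl : k = 0 := by omega
    rw [e0]
    exact vQ 0 (Nat.zero_le _)
  · obtain rfl : k = 0 := by omega
    rw [e0, chr_congr hP hQ (m := 0) (fun k hk => absurd hk (Nat.not_lt_zero _))
      (AdxRow.vars_sub_le (hT i j 0) (hQ 0))]
    exact nQ i hi j hj 0 (Nat.zero_le _)

end Pool.AF35
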